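import Mathlib

/-! If few tuples of a box are bad, then one tuple is good. -/

set_option autoImplicit false

namespace Pool.Agent.W_52423f_h41

/-- The number of the integer matrices in a box. -/
theorem box_all (m R B : ℕ) :
    {x : Fin m → Fin R → ℤ | ∀ i j, |x i j| ≤ (B : ℤ)}.Finite ∧
      {x : Fin m → Fin R → ℤ | ∀ i j, |x i j| ≤ (B : ℤ)}.ncard = (2 * B + 1) ^ (m * R) := by
  classical
  have h1 : {x : Fin m → Fin R → ℤ | ∀ i j, |x i j| ≤ (B : ℤ)} =
      ((Fintype.piFinset fun _ : Fin m => Fintype.piFinset fun _ : Fin R =>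
        Finset.Icc (-(B : ℤ)) B : Finset (Fin m → Fin R → ℤ)) : Set (Fin m → Fin R → ℤ)) := by
    ext x
    show (∀ i j, |x i j| ≤ (B : ℤ)) ↔ _
    rw [Finset.mem_coe, Fintype.mem_piFinset]
    refine forall_congr' fun i => ?_
    rw [Fintype.mem_piFinset]
    refine forall_congr' fun j => ?_
    rw [Finset.mem_Icc, ← abs_le]
  rw [h1]
  refine ⟨Finset.finite_toSet _, ?_⟩
  rw [Set.ncard_coe_finset, Fintype.card_piFinset, Finset.prod_const, Fintype.card_piFinset,
    Finset.prod_const, Int.card_Icc, Finset.card_univ, Finset.card_univ, Fintype.card_fin,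
    Fintype.card_fin, ← pow_mul, mul_comm R m]
  congr 1
  show ((B : ℤ) + 1 - -(B : ℤ)).toNat = 2 * B + 1
  omega

/-- If the number of the bad matrices in each box is at most `C (2 B + 1)^e` with `e < m R`
(or `C = 0`), then some matrix is not bad. -/
theorem exists_good {m R : ℕ} (P : (Fin m → Fin R → ℤ) → Prop) (C e : ℕ)
    (he : e < m * R ∨ C = 0)
    (h : ∀ B : ℕ, {x : Fin m → Fin R → ℤ | (∀ i j, |x i j| ≤ (B : ℤ)) ∧ P x}.ncard ≤
      C * (2 * B + 1) ^ e) : ∃ x, ¬ P x := by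
  by_contra hcon
  push Not at hcon
  have h1 := h C
  have h2 : {x : Fin m → Fin R → ℤ | (∀ i j, |x i j| ≤ (C : ℤ)) ∧ P x} =
      {x : Fin m → Fin R → ℤ | ∀ i j, |x i j| ≤ (C : ℤ)} := by
    ext x
    exact ⟨fun hx => hx.1, fun hx => ⟨hx, hcon x⟩⟩
  rw [h2, (box_all m R C).2] at h1
  have hpos : 0 < (2 * C + 1) ^ e := Nat.pow_pos (by omega)
  rcases he with he | he
  · have h3 : (2 * C + 1) ^ (e + 1) ≤ (2 * C + 1) ^ (m * R) :=
      Nat.pow_le_pow_right (by omega) he
    have h4 : C * (2 * C + 1) ^ e < (2 * C + 1) ^ (e + 1) := by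
      rw [pow_succ, mul_comm]
      exact Nat.mul_lt_mul_of_pos_left (by omega) hpos
    omega
  · subst he
    have h3 : 0 < (2 * 0 + 1) ^ (m * R) := Nat.pow_pos (by omega)
    omega

/-- The square case: at most `m (2 B + 1)^((m - 1) m + (m - 1))` bad tuples of the box of `m` vectors. -/
theorem exists_good_square {m : ℕ} (P : (Fin m → Fin m → ℤ) → Prop)
    (h : ∀ B : ℕ, {x : Fin m → Fin m → ℤ | (∀ i j, |x i j| ≤ (B : ℤ)) ∧ P x}.ncard ≤
      m * (2 * B + 1) ^ ((m - 1) * m + (m - 1))) : ∃ x, ¬ P x := by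
  refine exists_good P m ((m - 1) * m + (m - 1)) ?_ h
  rcases Nat.eq_zero_or_pos m with h0 | h0
  · exact Or.inr h0
  · left
    obtain ⟨l, rfl⟩ : ∃ l, m = l + 1 := ⟨m - 1, by omega⟩
    rw [Nat.add_sub_cancel]
    have : (l + 1) * (l + 1) = l * (l + 1) + l + 1 := by ring
    omega

end Pool.Agent.W_52423f_h41
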