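import Pool.Agent.W_52423f_h53.AA
import Pool.Agent.W_52423f_h41.Good

/-! If almost all tuples are good, then the logarithms of a basis are independent. -/

set_option autoImplicit false
set_option linter.unusedSectionVars false

namespace Pool.Agent.W_52423f_h41

open Module Pool.Agent.W_52423f_h69

/-- One independent tuple of `m` integral combinations of `m` vectors: the vectors are independent. -/
theorem indep_of_comb {Ω T : Type*} [Field Ω] [AddCommGroup T] [Module Ω T] {m : ℕ} (y : Fin m → T)
    (x : Fin m → Fin m → ℤ) (h : LinearIndependent Ω (fun i => ∑ j, x i j • y j)) :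
    LinearIndependent Ω y := by
  classical
  rw [linearIndependent_iff_card_le_finrank_span, Fintype.card_fin]
  have h1 := finrank_span_eq_card h
  rw [Fintype.card_fin] at h1
  have hf : FiniteDimensional Ω (Submodule.span Ω (Set.range y)) :=
    FiniteDimensional.span_of_finite Ω (Set.finite_range y)
  refine h1.symm.le.trans ?_
  show _ ≤ finrank Ω (Submodule.span Ω (Set.range y))
  refine Submodule.finrank_mono ?_
  rw [Submodule.span_le]
  rintro _ ⟨i, rfl⟩
  exact sum_mem fun j _ => zsmul_mem (Submodule.subset_span (Set.mem_range_self j)) _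

/-- Few dependent tuples: the vectors are independent. -/
theorem indep_of_count {Ω T : Type*} [Field Ω] [AddCommGroup T] [Module Ω T] {m : ℕ}
    (y : Fin m → T)
    (h : ∀ B : ℕ, {x : Fin m → Fin m → ℤ | (∀ i j, |x i j| ≤ (B : ℤ)) ∧
      ¬ LinearIndependent Ω (fun i => ∑ j, x i j • y j)}.ncard ≤
        m * (2 * B + 1) ^ ((m - 1) * m + (m - 1))) : LinearIndependent Ω y := by
  obtain ⟨x, hx⟩ := exists_good_square _ h
  exact indep_of_comb y x (not_not.1 hx)

section

variable (p : ℕ) [Fact p.Prime] {V : Type*} [AddCommGroup V] {T : Type*} [AddCommGroup T]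
    [Module ℚ_[p] T] [Module ℤ_[p] T] [IsScalarTower ℤ_[p] ℚ_[p] T] [TopologicalSpace T]
    [IsTopologicalAddGroup T] [ContinuousSMul ℚ_[p] T] [T2Space T] (log : V →+ T)

/-- The closure of the logarithms of a finitely generated subgroup. -/
theorem closure_log {k : ℕ} (P : Fin k → V) :
    ∃ H : Submodule ℤ_[p] T, (H : Set T) = closure (log '' (AddSubgroup.closure
      (Set.range P) : Set V)) ∧ Module.Finite ℤ_[p] H ∧ Module.Free ℤ_[p] H ∧
        finrank ℤ_[p] H =
          finrank ℚ_[p] (Submodule.span ℚ_[p] (Set.range fun i => log (P i))) := by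
  classical
  obtain ⟨hfin, hfree, hrk⟩ := finrank_zp (p := p) (fun i => log (P i))
  refine ⟨Submodule.span ℤ_[p] (Set.range fun i => log (P i)), ?_, hfin, hfree, hrk⟩
  rw [closure_zspan]
  congr 1
  have h2 : (AddSubgroup.closure (Set.range P) : Set V) = Submodule.span ℤ (Set.range P) := by
    rw [← Submodule.span_int_eq_addSubgroupClosure]
    rfl
  show _ = log '' (AddSubgroup.closure (Set.range P) : Set V)
  rw [h2]
  have h3 : (Submodule.span ℤ (Set.range P)).map log.toIntLinearMap =
      Submodule.span ℤ (Set.range fun i => log (P i)) := by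
    rw [Submodule.map_span]
    congr 1
    ext y
    simp
  rw [← h3]
  rfl

/-- The closure has rank `m` for `m` generators if and only if their logarithms are independent. -/
theorem closure_log_iff {m : ℕ} (P : Fin m → V) :
    (∃ H : Submodule ℤ_[p] T, (H : Set T) = closure (log '' (AddSubgroup.closure
      (Set.range P) : Set V)) ∧ Module.Finite ℤ_[p] H ∧ Module.Free ℤ_[p] H ∧
        finrank ℤ_[p] H = m) ↔ LinearIndependent ℚ_[p] (fun i => log (P i)) := by
  obtain ⟨H, h1, h2, h3, h4⟩ := closure_log p log P
  rw [linearIndependent_iff_card_eq_finrank_span, Fintype.card_fin]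
  constructor
  · rintro ⟨H', h1', -, -, h4'⟩
    have h5 : H' = H := SetLike.coe_injective (h1'.trans h1.symm)
    rw [h5, h4] at h4'
    exact h4'.symm
  · intro h5
    exact ⟨H, h1, h2, h3, h4.trans h5.symm⟩

/-- If for the boxes of `m` vectors `g` almost all `m`-tuples have a closure of rank `m`, then the
logarithms of `g` are independent. -/
theorem indep_of_closure_count {m : ℕ} (g : Fin m → V)
    (h : ∀ B : ℕ, {x : Fin m → Fin m → ℤ | (∀ i j, |x i j| ≤ (B : ℤ)) ∧
      ¬ ∃ H : Submodule ℤ_[p] T, (H : Set T) = closure (log '' (AddSubgroup.closure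
        (Set.range fun i => ∑ j, x i j • g j) : Set V)) ∧ Module.Finite ℤ_[p] H ∧
          Module.Free ℤ_[p] H ∧ finrank ℤ_[p] H = m}.ncard ≤
        m * (2 * B + 1) ^ ((m - 1) * m + (m - 1))) :
    LinearIndependent ℚ_[p] (fun j => log (g j)) := by
  obtain ⟨x, hx⟩ := exists_good_square _ h
  have h1 := (closure_log_iff p log _).1 (not_not.1 hx)
  refine indep_of_comb _ x ?_
  convert h1 using 2 with i
  rw [map_sum]
  exact Finset.sum_congr rfl fun j _ => (map_zsmul log _ _).symm

end

end Pool.Agent.W_52423f_h41
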